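import Mathlib
import Pool.Agent.Helper184.SylStarDefs
import Pool.Agent.Helper184.SylStarMain

set_option autoImplicit false

namespace Pool.Agent.Results.MP_e3cc28_al.SolubleReduction

open Pool.Agent.Helper184.SylStar

universe u

theorem hasStar_of_comm (G : Type*) [Group G] [Finite G]
    (h : ∀ P : Sylow 2 G, ∀ x ∈ P, ∀ y ∈ P, x * y = y * x) : HasStar G := by
  rw [hasStar_iff_star]
  intro P Q
  refine ⟨P, le_sup_left, ?_⟩
  intro s hs x hx hx'
  have : s * x * s⁻¹ = x := by
    rw [h P s hs x hx]; group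
  rw [this]; exact ⟨hx, hx'⟩

/-- (1) Determination of all finite soluble groups with property `(∗)`;
(2) reduction of property `(∗)` modulo an arbitrary soluble normal subgroup `R`;
(3) determination of the groups with `(∗)` among all finite groups `G` having a soluble normal
subgroup `R` such that the Sylow 2-subgroups of `G / R` are abelian. -/
theorem result :
    (∀ (G : Type u) [Group G] [Finite G] [Group.IsSolvable G],
      HasStar G ↔ CondBelow (⊤ : Subgroup G)) ∧
    (∀ (G : Type u) [Group G] [Finite G] (R : Subgroup G) [R.Normal] [Group.IsSolvable R],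
      HasStar G ↔ (HasStar (G ⧸ R) ∧ CondBelow R)) ∧
    (∀ (G : Type u) [Group G] [Finite G] (R : Subgroup G) [R.Normal] [Group.IsSolvable R],
      (∀ P : Sylow 2 (G ⧸ R), ∀ x ∈ P, ∀ y ∈ P, x * y = y * x) →
        (HasStar G ↔ CondBelow R)) := by
  refine ⟨?_, ?_, ?_⟩
  · intro G _ _ _
    have hsub : Subsingleton (G ⧸ (⊤ : Subgroup G)) :=
      QuotientGroup.subsingleton_quotient_top
    have h : HasStar (G ⧸ (⊤ : Subgroup G)) :=
      hasStar_of_subsingleton (G ⧸ (⊤ : Subgroup G))
    rw [reduction (⊤ : Subgroup G)]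
    exact ⟨fun h' => h'.2, fun h' => ⟨h, h'⟩⟩
  · intro G _ _ R _ _
    exact reduction R
  · intro G _ _ R _ _ hab
    rw [reduction R]
    exact ⟨fun h' => h'.2, fun h' => ⟨hasStar_of_comm _ hab, h'⟩⟩

end Pool.Agent.Results.MP_e3cc28_al.SolubleReduction
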