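import Mathlib
import Pool.Agent.Helper184.SylStarDefs
import Pool.Agent.Helper184.SylStarMain
import Pool.Agent.Helper184.SylStarMore
import Pool.Agent.Helper184.SylStarWreath

set_option autoImplicit false

namespace Pool.Agent.Results.MP_e3cc28_al.WreathProducts

open Pool.Agent.Helper184.SylStar

universe u v

/-- the symmetric group of degree three is soluble -/
theorem s3_solvable : Group.IsSolvable (Equiv.Perm (Fin 3)) := by
  have h1 : Nat.card (alternatingGroup (Fin 3)) = 3 := by
    rw [Nat.card_eq_fintype_card]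
    decide
  have hcyc : IsCyclic (alternatingGroup (Fin 3)) := by
    haveI : Fact (Nat.Prime 3) := ⟨Nat.prime_three⟩
    exact isCyclic_of_prime_card h1
  have hs : Group.IsSolvable (alternatingGroup (Fin 3)) := by
    letI : CommGroup (alternatingGroup (Fin 3)) := IsCyclic.commGroup
    infer_instance
  exact Group.isSolvable_of_ker_le_range (alternatingGroup (Fin 3)).subtype
    (Equiv.Perm.sign : Equiv.Perm (Fin 3) →* ℤˣ) (by
      intro x hx
      rw [Subgroup.range_subtype]
      exact hx)

theorem wreath_solvable : Group.IsSolvable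
    (RegularWreathProduct (Equiv.Perm (Fin 3)) (Multiplicative (ZMod 2))) := by
  have hA := s3_solvable
  let q1 : Multiplicative (ZMod 2) := Multiplicative.ofAdd 1
  have hq : ∀ q : Multiplicative (ZMod 2), q = 1 ∨ q = q1 := by decide
  let K := (RegularWreathProduct.rightHom :
    RegularWreathProduct (Equiv.Perm (Fin 3)) (Multiplicative (ZMod 2)) →*
      Multiplicative (ZMod 2)).ker
  let φ : K →* Equiv.Perm (Fin 3) × Equiv.Perm (Fin 3) :=
    { toFun := fun w => (w.1.left 1, w.1.left q1)
      map_one' := rfl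
      map_mul' := by
        rintro ⟨a, ha⟩ ⟨b, hb⟩
        have ha' : a.right = 1 := ha
        change ((a * b).left 1, (a * b).left q1) =
          (a.left 1 * b.left 1, a.left q1 * b.left q1)
        simp [ha'] }
  have hφ : Function.Injective φ := by
    rintro ⟨a, ha⟩ ⟨b, hb⟩ hab
    have ha' : a.right = 1 := ha
    have hb' : b.right = 1 := hb
    have h1 : a.left 1 = b.left 1 := congrArg Prod.fst hab
    have h2 : a.left q1 = b.left q1 := congrArg Prod.snd hab
    apply Subtype.ext
    apply RegularWreathProduct.ext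
    · funext q
      rcases hq q with rfl | rfl
      · exact h1
      · exact h2
    · rw [ha', hb']
  have hK : Group.IsSolvable K := Group.isSolvable_of_isSolvable_injective hφ
  exact Group.isSolvable_of_ker_le_range K.subtype
    (RegularWreathProduct.rightHom :
      RegularWreathProduct (Equiv.Perm (Fin 3)) (Multiplicative (ZMod 2)) →*
        Multiplicative (ZMod 2)) (by
      intro x hx
      rw [Subgroup.range_subtype]
      exact hx)

theorem s3_not_normal : ¬ ∀ T : Sylow 2 (Equiv.Perm (Fin 3)),
    (T : Subgroup (Equiv.Perm (Fin 3))).Normal := by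
  intro h
  have hp : IsPGroup 2 (Subgroup.zpowers (Equiv.swap (0 : Fin 3) 1)) := by
    apply IsPGroup.of_card (n := 1)
    rw [Nat.card_zpowers, orderOf_eq_prime (p := 2)]
    · norm_num
    · rw [sq]; exact Equiv.swap_mul_self _ _
    · decide
  obtain ⟨T, hT⟩ := hp.exists_le_sylow
  have hT1 : Equiv.swap (0 : Fin 3) 1 ∈ (T : Subgroup (Equiv.Perm (Fin 3))) :=
    hT (Subgroup.mem_zpowers _)
  have hT2 := (h T).conj_mem _ hT1 (Equiv.swap (1 : Fin 3) 2)
  have h3 := (T : Subgroup (Equiv.Perm (Fin 3))).mul_mem hT1 hT2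
  -- an element of order three in a 2-group
  have h4 : orderOf (Equiv.swap (0 : Fin 3) 1 *
      (Equiv.swap (1 : Fin 3) 2 * Equiv.swap (0 : Fin 3) 1 * (Equiv.swap (1 : Fin 3) 2)⁻¹)) = 3 := by
    haveI : Fact (Nat.Prime 3) := ⟨Nat.prime_three⟩
    apply orderOf_eq_prime
    · decide
    · decide
  obtain ⟨k, hk⟩ := (IsPGroup.iff_orderOf.mp T.2) ⟨_, h3⟩
  rw [Subgroup.orderOf_mk, h4] at hk
  have h5 : Odd (3 : ℕ) := by decide
  rw [hk] at h5
  rcases Nat.eq_zero_or_pos k with rfl | hk0
  · norm_num at hk
  · exact (Nat.not_odd_iff_even.2 ((Nat.even_pow.2 ⟨even_two, hk0.ne'⟩))) h5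

/-- (1) For a finite group `A` and a non-trivial finite 2-group `Q`, the regular wreath product
`A ≀ Q` has property `(∗)` if and only if `A` is a 2-group or (`A` has a normal Sylow 2-subgroup
and all subgroups of `Q` are normal).
(2) The answer to the first part of the question is negative: some finite soluble group of order
72 has Sylow 2-subgroups `P`, `Q` such that `P ∩ Q` is not a normal subgroup of any Sylow
2-subgroup of `⟨P, Q⟩`. -/
theorem result :
    (∀ (A : Type u) (Q : Type v) [Group A] [Finite A] [Group Q] [Finite Q] [Nontrivial Q],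
      IsPGroup 2 Q →
        (HasStar (RegularWreathProduct A Q) ↔
          (IsPGroup 2 A ∨
            ((∀ T : Sylow 2 A, (T : Subgroup A).Normal) ∧ ∀ H : Subgroup Q, H.Normal)))) ∧
    (∃ (G : Type) (_ : Group G), Nat.card G = 72 ∧ Group.IsSolvable G ∧
      ∃ P Q : Sylow 2 G, ∀ S : Sylow 2 ↥((P : Subgroup G) ⊔ (Q : Subgroup G)),
        ¬ ((((P : Subgroup G) ⊓ (Q : Subgroup G)).subgroupOf
              ((P : Subgroup G) ⊔ (Q : Subgroup G))) ≤
            (S : Subgroup ↥((P : Subgroup G) ⊔ (Q : Subgroup G))) ∧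
          ((((P : Subgroup G) ⊓ (Q : Subgroup G)).subgroupOf
            ((P : Subgroup G) ⊔ (Q : Subgroup G))).subgroupOf
              (S : Subgroup ↥((P : Subgroup G) ⊔ (Q : Subgroup G)))).Normal)) := by
  have main : ∀ (A : Type u) (Q : Type v) [Group A] [Finite A] [Group Q] [Finite Q] [Nontrivial Q],
      IsPGroup 2 Q →
        (HasStar (RegularWreathProduct A Q) ↔
          (IsPGroup 2 A ∨
            ((∀ T : Sylow 2 A, (T : Subgroup A).Normal) ∧ ∀ H : Subgroup Q, H.Normal))) := by
    intro A Q _ _ _ _ _ hQ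
    rw [hasStar_iff_star]
    exact star_wreath_iff hQ
  refine ⟨main, ?_⟩
  refine ⟨RegularWreathProduct (Equiv.Perm (Fin 3)) (Multiplicative (ZMod 2)), inferInstance,
    ?_, wreath_solvable, ?_⟩
  · rw [RegularWreathProduct.card]
    have h1 : Nat.card (Equiv.Perm (Fin 3)) = 6 := by
      rw [Nat.card_eq_fintype_card]; decide
    have h2 : Nat.card (Multiplicative (ZMod 2)) = 2 := by
      rw [Nat.card_eq_fintype_card]; decide
    rw [h1, h2]
    norm_num
  · by_contra hcon
    have hQ : IsPGroup 2 (Multiplicative (ZMod 2)) := by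
      apply IsPGroup.of_card (n := 1)
      rw [Nat.card_eq_fintype_card]; decide
    have hstar : HasStar (RegularWreathProduct (Equiv.Perm (Fin 3)) (Multiplicative (ZMod 2))) := by
      intro P Q
      by_contra h
      exact hcon ⟨P, Q, fun S hS => h ⟨S, hS⟩⟩
    rw [hasStar_iff_star] at hstar
    exact s3_not_normal (fun T => wreath_normal hQ hstar T)

end Pool.Agent.Results.MP_e3cc28_al.WreathProducts
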